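import Mathlib

set_option autoImplicit false

namespace Pool.Agent.H40.FH

open Finset

section comb

variable {ι : Type*} [DecidableEq ι]

/-- The `g` elements of `V` with the largest weights. -/
theorem exists_top (V : Finset ι) (ω : ι → ℝ) : ∀ g : ℕ, g ≤ V.card →
    ∃ S ⊆ V, S.card = g ∧ ∀ u ∈ S, ∀ v ∈ V, v ∉ S → ω v ≤ ω u := by
  intro g
  induction g with
  | zero =>
    intro _
    exact ⟨∅, empty_subset _, rfl, by simp⟩
  | succ g ih =>
    intro hg
    obtain ⟨S, hSV, hSc, hS⟩ := ih (by omega)
    have hne : (V \ S).Nonempty := by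
      rw [← Finset.card_pos, Finset.card_sdiff_of_subset hSV]
      omega
    obtain ⟨a, ha, hmax⟩ := Finset.exists_max_image (V \ S) ω hne
    rw [mem_sdiff] at ha
    refine ⟨insert a S, insert_subset ha.1 hSV, ?_, ?_⟩
    · rw [Finset.card_insert_of_notMem ha.2, hSc]
    · intro u hu v hv hvS
      rw [mem_insert, not_or] at hvS
      rcases mem_insert.1 hu with rfl | hu
      · exact hmax v (mem_sdiff.2 ⟨hv, hvS.2⟩)
      · exact hS u hu v hv hvS.2

/-- Disjoint groups of `g` elements, the elements of the group `k` having larger `k`-weights than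
all the elements outside the groups. -/
theorem exists_groups {κ : Type*} [DecidableEq κ] (V : Finset ι) (ω : κ → ι → ℝ) (g : ℕ)
    (s : Finset κ) : s.card * g ≤ V.card →
      ∃ G : κ → Finset ι, (∀ k ∈ s, G k ⊆ V ∧ (G k).card = g) ∧
        (∀ k ∈ s, ∀ l ∈ s, k ≠ l → Disjoint (G k) (G l)) ∧
        ∀ k ∈ s, ∀ u ∈ G k, ∀ v ∈ V, v ∉ s.biUnion G → ω k v ≤ ω k u := by
  induction s using Finset.induction_on with
  | empty =>
    intro _
    exact ⟨fun _ => ∅, by simp, by simp, by simp⟩
  | insert a s ha ih =>
    intro hc
    rw [Finset.card_insert_of_notMem ha, add_mul, one_mul] at hc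
    obtain ⟨G, h1, h2, h3⟩ := ih (by omega)
    have hsub : s.biUnion G ⊆ V := by
      intro u hu
      obtain ⟨k, hk, hu⟩ := mem_biUnion.1 hu
      exact (h1 k hk).1 hu
    have hcard : (s.biUnion G).card ≤ s.card * g :=
      Finset.card_biUnion_le_card_mul _ _ _ fun k hk => (h1 k hk).2.le
    obtain ⟨S, hSV, hSc, hS⟩ := exists_top (V \ s.biUnion G) (ω a) g (by
      rw [Finset.card_sdiff_of_subset hsub]
      omega)
    have hG' : ∀ k ∈ s, Function.update G a S k = G k := by
      intro k hk
      refine Function.update_of_ne (fun h => ?_) _ _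
      rw [h] at hk
      exact ha hk
    have hun : (insert a s).biUnion (Function.update G a S) = S ∪ s.biUnion G := by
      rw [Finset.biUnion_insert, Function.update_self]
      congr 1
      exact Finset.biUnion_congr rfl hG'
    have hdis : ∀ k ∈ s, Disjoint S (G k) := by
      intro k hk
      rw [Finset.disjoint_left]
      intro u hu hu'
      exact (mem_sdiff.1 (hSV hu)).2 (mem_biUnion.2 ⟨k, hk, hu'⟩)
    refine ⟨Function.update G a S, ?_, ?_, ?_⟩
    · intro k hk
      rcases mem_insert.1 hk with rfl | hk
      · rw [Function.update_self]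
        exact ⟨hSV.trans sdiff_subset, hSc⟩
      · rw [hG' k hk]
        exact h1 k hk
    · intro k hk l hl hkl
      rcases mem_insert.1 hk with rfl | hk
      · rcases mem_insert.1 hl with rfl | hl
        · exact absurd rfl hkl
        · rw [Function.update_self, hG' l hl]
          exact hdis l hl
      · rcases mem_insert.1 hl with h5 | hl
        · rw [h5, Function.update_self, hG' k hk]
          exact (hdis k hk).symm
        · rw [hG' k hk, hG' l hl]
          exact h2 k hk l hl hkl
    · rw [hun]
      intro k hk u hu v hv hvn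
      rw [mem_union, not_or] at hvn
      rcases mem_insert.1 hk with rfl | hk
      · rw [Function.update_self] at hu
        exact hS u hu v (mem_sdiff.2 ⟨hv, hvn.2⟩) hvn.1
      · rw [hG' k hk] at hu
        exact h3 k hk u hu v hv hvn.2

/-- Balancing: a point of the cube in the kernel of `m` linear forms with at most `m` coordinates
different from `1` and `-1`. -/
theorem exists_balanced (U : Finset ι) (m : ℕ) (c : Fin m → ι → ℝ) :
    ∃ y : ι → ℝ, (∀ u ∈ U, |y u| ≤ 1) ∧ (∀ i, ∑ u ∈ U, c i u * y u = 0) ∧
      (U.filter fun u => |y u| ≠ 1).card ≤ m := by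
  classical
  suffices H : ∀ (N : ℕ) (y : ι → ℝ), (U.filter fun u => |y u| ≠ 1).card = N →
      (∀ u ∈ U, |y u| ≤ 1) → (∀ i, ∑ u ∈ U, c i u * y u = 0) →
      ∃ y : ι → ℝ, (∀ u ∈ U, |y u| ≤ 1) ∧ (∀ i, ∑ u ∈ U, c i u * y u = 0) ∧
        (U.filter fun u => |y u| ≠ 1).card ≤ m by
    exact H _ (fun _ => 0) rfl (by simp) (by simp)
  intro N
  induction N using Nat.strong_induction_on with
  | _ N ih =>
    intro y hN hy hc
    by_cases hle : N ≤ m
    · exact ⟨y, hy, hc, by omega⟩
    push Not at hle
    set F := U.filter fun u => |y u| ≠ 1 with hF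
    -- a kernel vector supported on the fractional coordinates
    obtain ⟨v, hv0, hvk⟩ : ∃ v : F → ℝ, v ≠ 0 ∧ ∀ i, ∑ u : F, c i u * v u = 0 := by
      let T : (F → ℝ) →ₗ[ℝ] (Fin m → ℝ) := Matrix.mulVecLin (Matrix.of fun i (u : F) => c i u)
      have hdim : Module.finrank ℝ (Fin m → ℝ) < Module.finrank ℝ (F → ℝ) := by
        rw [Module.finrank_fintype_fun_eq_card, Module.finrank_fintype_fun_eq_card,
          Fintype.card_fin, Fintype.card_coe]
        omega
      have hker := LinearMap.ker_ne_bot_of_finrank_lt (f := T) hdim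
      obtain ⟨v, hv, hv0⟩ := (Submodule.ne_bot_iff _).1 hker
      refine ⟨v, hv0, fun i => ?_⟩
      have := congrFun (LinearMap.mem_ker.1 hv) i
      simpa [T, Matrix.mulVecLin, Matrix.mulVec, dotProduct] using this
    obtain ⟨v', hv'⟩ : ∃ v' : ι → ℝ, ∀ u, v' u = if h : u ∈ F then v ⟨u, h⟩ else 0 := ⟨_, fun _ => rfl⟩
    have hv'F : ∀ u : F, v' u = v u := fun u => by rw [hv', dif_pos u.2]
    have hv'0 : ∀ u, u ∉ F → v' u = 0 := fun u hu => by rw [hv', dif_neg hu]
    have hsum : ∀ i, ∑ u ∈ U, c i u * v' u = 0 := by
      intro i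
      rw [← Finset.sum_subset (Finset.filter_subset _ _ : F ⊆ U) (fun u _ hu => by
        rw [hv'0 u hu, mul_zero])]
      rw [← Finset.sum_coe_sort F fun u => c i u * v' u]
      rw [← hvk i]
      exact Finset.sum_congr rfl fun u _ => by rw [hv'F]
    set F' := F.filter fun u => v' u ≠ 0 with hF'
    have hne : F'.Nonempty := by
      by_contra hcon
      rw [Finset.not_nonempty_iff_eq_empty] at hcon
      apply hv0
      funext u
      by_contra h
      have : (u : ι) ∈ F' := by
        rw [hF', mem_filter]
        exact ⟨u.2, by rw [hv'F]; exact h⟩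
      rw [hcon] at this
      simp at this
    have hlt : ∀ u ∈ F, |y u| < 1 := fun u hu => by
      have h := mem_filter.1 hu
      exact lt_of_le_of_ne (hy u h.1) h.2
    -- the time at which the coordinate `u` reaches the boundary
    let τ : ι → ℝ := fun u => (1 - SignType.sign (v' u) * y u) / |v' u|
    obtain ⟨u0, hu0, hmin⟩ := Finset.exists_min_image F' τ hne
    have hu0' := mem_filter.1 hu0
    have hbd : ∀ u ∈ F', 0 ≤ τ u := by
      intro u hu
      have h := mem_filter.1 hu
      have h1 := abs_lt.1 (hlt u h.1)
      refine div_nonneg ?_ (abs_nonneg _)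
      rcases lt_or_gt_of_ne h.2 with h2 | h2
      · rw [sign_neg h2]
        simp only [SignType.coe_neg, SignType.coe_one]
        linarith
      · rw [sign_pos h2]
        simp only [SignType.coe_one]
        linarith
    have hτ0 := hbd u0 hu0
    let y' : ι → ℝ := fun u => y u + τ u0 * v' u
    have hy'1 : |y' u0| = 1 := by
      have h2 := hu0'.2
      show |y u0 + (1 - SignType.sign (v' u0) * y u0) / |v' u0| * v' u0| = 1
      rcases lt_or_gt_of_ne h2 with h3 | h3
      · rw [sign_neg h3, abs_of_neg h3]
        simp only [SignType.coe_neg, SignType.coe_one]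
        have : y u0 + (1 - -1 * y u0) / -v' u0 * v' u0 = -1 := by
          rw [div_mul_eq_mul_div, ← eq_sub_iff_add_eq', div_eq_iff (neg_ne_zero.2 h2)]
          ring
        rw [this]
        norm_num
      · rw [sign_pos h3, abs_of_pos h3]
        simp only [SignType.coe_one]
        have : y u0 + (1 - 1 * y u0) / v' u0 * v' u0 = 1 := by
          rw [div_mul_cancel₀ _ h2]
          ring
        rw [this]
        norm_num
    have hy'le : ∀ u ∈ U, |y' u| ≤ 1 := by
      intro u hu
      by_cases hu' : u ∈ F'
      · have h := mem_filter.1 hu'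
        have h1 := abs_lt.1 (hlt u h.1)
        have h2 := hmin u hu'
        rw [abs_le]
        show -1 ≤ y u + τ u0 * v' u ∧ y u + τ u0 * v' u ≤ 1
        rcases lt_or_gt_of_ne h.2 with h3 | h3
        · have h4 : τ u * v' u = -1 - y u := by
            show (1 - SignType.sign (v' u) * y u) / |v' u| * v' u = -1 - y u
            rw [sign_neg h3, abs_of_neg h3]
            simp only [SignType.coe_neg, SignType.coe_one]
            rw [div_mul_eq_mul_div, div_eq_iff (neg_ne_zero.2 h.2)]
            ring
          have h5 : τ u * v' u ≤ τ u0 * v' u := mul_le_mul_of_nonpos_right h2 h3.le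
          have h6 : τ u0 * v' u ≤ 0 := mul_nonpos_of_nonneg_of_nonpos hτ0 h3.le
          constructor <;> linarith
        · have h4 : τ u * v' u = 1 - y u := by
            show (1 - SignType.sign (v' u) * y u) / |v' u| * v' u = 1 - y u
            rw [sign_pos h3, abs_of_pos h3]
            simp only [SignType.coe_one]
            rw [div_mul_cancel₀ _ h.2]
            ring
          have h5 : τ u0 * v' u ≤ τ u * v' u := mul_le_mul_of_nonneg_right h2 h3.le
          have h6 : 0 ≤ τ u0 * v' u := mul_nonneg hτ0 h3.le
          constructor <;> linarith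
      · have h0 : v' u = 0 := by
          by_cases hF1 : u ∈ F
          · by_contra h
            exact hu' (mem_filter.2 ⟨hF1, h⟩)
          · exact hv'0 u hF1
        show |y u + τ u0 * v' u| ≤ 1
        rw [h0, mul_zero, add_zero]
        exact hy u hu
    have hsub : (U.filter fun u => |y' u| ≠ 1) ⊂ F := by
      rw [Finset.ssubset_iff_of_subset]
      · refine ⟨u0, hu0'.1, ?_⟩
        rw [mem_filter, not_and, not_not]
        exact fun _ => hy'1
      · intro u hu
        have h := mem_filter.1 hu
        rw [hF, mem_filter]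
        refine ⟨h.1, fun h1 => h.2 ?_⟩
        have h0 : v' u = 0 := hv'0 u fun h2 => (mem_filter.1 h2).2 h1
        show |y u + τ u0 * v' u| = 1
        rw [h0, mul_zero, add_zero]
        exact h1
    refine ih _ (by rw [← hN]; exact Finset.card_lt_card hsub) y' rfl hy'le fun i => ?_
    show ∑ u ∈ U, c i u * (y u + τ u0 * v' u) = 0
    have : ∀ u, c i u * (y u + τ u0 * v' u) = c i u * y u + τ u0 * (c i u * v' u) := fun u => by
      ring
    simp only [this]
    rw [Finset.sum_add_distrib, ← Finset.mul_sum, hc i, hsum i]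
    simp

/-- Signs for which `m` linear forms are small. -/
theorem exists_signs (U : Finset ι) (m : ℕ) (c : Fin m → ι → ℝ) (W : Fin m → ℝ)
    (hW : ∀ i, ∀ u ∈ U, |c i u| ≤ W i) (hW0 : ∀ i, 0 ≤ W i) :
    ∃ y : ι → ℝ, (∀ u, y u = 1 ∨ y u = -1) ∧ ∀ i, |∑ u ∈ U, c i u * y u| ≤ m * W i := by
  classical
  obtain ⟨z, h1, h2, h3⟩ := exists_balanced U m c
  let y : ι → ℝ := fun u => if 0 ≤ z u then 1 else -1
  refine ⟨y, fun u => ?_, fun i => ?_⟩
  · by_cases h : 0 ≤ z u
    · exact Or.inl (if_pos h)
    · exact Or.inr (if_neg h)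
  · have hd : ∀ u ∈ U, |y u - z u| ≤ if |z u| ≠ 1 then 1 else 0 := by
      intro u hu
      have h := abs_le.1 (h1 u hu)
      by_cases h4 : 0 ≤ z u
      · have e : y u = 1 := if_pos h4
        rw [e]
        split_ifs with h5
        · rw [abs_le]
          constructor <;> linarith
        · rw [not_not, abs_of_nonneg h4] at h5
          rw [h5, sub_self, abs_zero]
      · have e : y u = -1 := if_neg h4
        rw [e]
        push Not at h4
        split_ifs with h5
        · rw [abs_le]
          constructor <;> linarith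
        · rw [not_not, abs_of_neg h4] at h5
          have : z u = -1 := by linarith
          rw [this, sub_self, abs_zero]
    have e : ∑ u ∈ U, c i u * y u = ∑ u ∈ U, c i u * (y u - z u) := by
      have : ∀ u, c i u * (y u - z u) = c i u * y u - c i u * z u := fun u => by ring
      simp only [this]
      rw [Finset.sum_sub_distrib, h2 i, sub_zero]
    rw [e]
    calc |∑ u ∈ U, c i u * (y u - z u)| ≤ ∑ u ∈ U, |c i u * (y u - z u)| :=
          Finset.abs_sum_le_sum_abs _ _
      _ ≤ ∑ u ∈ U, W i * (if |z u| ≠ 1 then 1 else 0) := by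
          refine Finset.sum_le_sum fun u hu => ?_
          rw [abs_mul]
          exact mul_le_mul (hW i u hu) (hd u hu) (abs_nonneg _) (hW0 i)
      _ = W i * (U.filter fun u => |z u| ≠ 1).card := by
          rw [← Finset.mul_sum, Finset.sum_boole]
      _ ≤ m * W i := by
          rw [mul_comm]
          exact mul_le_mul_of_nonneg_right (by exact_mod_cast h3) (hW0 i)

end comb

/-- If on each line in the direction `form q` at most one point is bad for `q`, then some point is
not bad for any of the `K` gates. -/
theorem exists_good (m K : ℕ) (form : Fin K → Fin m)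
    (Bad : Fin K → (Fin m → Fin (K + 1)) → Prop)
    (h : ∀ q t t', (∀ l, l ≠ form q → t l = t' l) → Bad q t → Bad q t' → t = t') :
    ∃ t, ∀ q, ¬ Bad q t := by
  classical
  by_contra hcon
  push Not at hcon
  set N := Fintype.card (Fin m → Fin (K + 1)) with hN
  have hNpos : 0 < N := Fintype.card_pos
  have h1 : ∀ q, (univ.filter (Bad q)).card * (K + 1) ≤ N := by
    intro q
    have : ((univ.filter (Bad q)) ×ˢ (univ : Finset (Fin (K + 1)))).card ≤
        (univ : Finset (Fin m → Fin (K + 1))).card := by
      refine Finset.card_le_card_of_injOn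
        (fun p : (Fin m → Fin (K + 1)) × Fin (K + 1) => Function.update p.1 (form q) p.2)
        (fun _ _ => mem_coe.2 (mem_univ _)) ?_
      rintro ⟨t, c⟩ ht ⟨t', c'⟩ ht' heq
      simp only [coe_product, coe_filter, mem_univ, true_and, coe_univ, Set.mem_prod,
        Set.mem_ofPred_eq, Set.mem_univ, and_true] at ht ht'
      have heq' : Function.update t (form q) c = Function.update t' (form q) c' := heq
      have h2 : t = t' := by
        refine h q t t' (fun l hl => ?_) ht ht'
        have := congrFun heq' l
        rwa [Function.update_of_ne hl, Function.update_of_ne hl] at this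
      have h3 : c = c' := by
        have := congrFun heq' (form q)
        rwa [Function.update_self, Function.update_self] at this
      rw [h2, h3]
    rw [Finset.card_product, Finset.card_univ, Fintype.card_fin, Finset.card_univ] at this
    exact this
  have h2 : N ≤ ∑ q : Fin K, (univ.filter (Bad q)).card := by
    calc N = (univ : Finset (Fin m → Fin (K + 1))).card := rfl
      _ ≤ ((univ : Finset (Fin K)).biUnion fun q => univ.filter (Bad q)).card := by
          refine Finset.card_le_card fun t _ => ?_
          obtain ⟨q, hq⟩ := hcon t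
          exact mem_biUnion.2 ⟨q, mem_univ _, mem_filter.2 ⟨mem_univ _, hq⟩⟩
      _ ≤ _ := Finset.card_biUnion_le
  have h3 : (∑ q : Fin K, (univ.filter (Bad q)).card) * (K + 1) ≤ K * N := by
    rw [Finset.sum_mul]
    calc ∑ q : Fin K, (univ.filter (Bad q)).card * (K + 1) ≤ ∑ _q : Fin K, N :=
          Finset.sum_le_sum fun q _ => h1 q
      _ = K * N := by simp
  have h4 : N * (K + 1) ≤ K * N := (Nat.mul_le_mul_right _ h2).trans h3
  have h5 : N * (K + 1) = K * N + N := by ring
  omega

end Pool.Agent.H40.FH
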