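import Pool.Agent.H40.FH.A

set_option autoImplicit false

namespace Pool.Agent.H40.FH

open Finset

/-- The examples: bit vectors of length `n`. -/
abbrev Ex (n : ℕ) : Type := Fin n → ZMod 2

/-- The parity function of the set `S`. -/
def chi {n : ℕ} (S : Finset (Fin n)) (x : Ex n) : ZMod 2 := ∑ i ∈ S, x i

/-- The number of mistakes in the remaining trials `xs` of the learner that predicts the label
`P h x` of the example `x` after the labelled examples `h`, when the target is `f`. -/
def mistakes {n : ℕ} (P : List (Ex n × ZMod 2) → Ex n → ZMod 2) (f : Ex n → ZMod 2) :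
    List (Ex n × ZMod 2) → List (Ex n) → ℕ
  | _, [] => 0
  | h, x :: xs => (if P h x = f x then 0 else 1) + mistakes P f (h ++ [(x, f x)]) xs

/-- A hypothesis: `K` threshold gates, the gate `q` having the weight vector `weight (form q)` and
the threshold `thr q`, and an arbitrary Boolean function `comb` of their values. Only `m` weight
vectors are used. -/
structure Hyp (n m K : ℕ) where
  weight : Fin m → Fin n → ℝ
  form : Fin K → Fin m
  thr : Fin K → ℝ
  comb : (Fin K → Bool) → ZMod 2

/-- The value at `x` of the linear form with the weights `w`: the sum of the weights of the bits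
of `x` that are `1`. -/
noncomputable def lin {n : ℕ} (w : Fin n → ℝ) (x : Ex n) : ℝ := ∑ i, if x i = 1 then w i else 0

open scoped Classical in
/-- The function given by a hypothesis. -/
noncomputable def Hyp.val {n m K : ℕ} (g : Hyp n m K) (x : Ex n) : ZMod 2 :=
  g.comb fun q => decide (g.thr q ≤ lin (g.weight (g.form q)) x)

section play

variable {n m K M : ℕ}

/-- The example with the set `X` of ones. -/
def ind (X : Finset (Fin n)) : Ex n := fun i => if i ∈ X then 1 else 0

theorem lin_ind (w : Fin n → ℝ) (X : Finset (Fin n)) : lin w (ind X) = ∑ i ∈ X, w i := by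
  unfold lin ind
  have : ∀ i : Fin n, (if (if i ∈ X then (1 : ZMod 2) else 0) = 1 then w i else 0) =
      if i ∈ X then w i else 0 := by
    intro i
    by_cases h : i ∈ X
    · simp [h]
    · simp [h]
  simp only [this]
  rw [Finset.sum_ite_mem, Finset.univ_inter]

/-- The sign, with `sg 0 = 1`. -/
noncomputable def sg (r : ℝ) : ℝ := if 0 ≤ r then 1 else -1

theorem mul_sg (r : ℝ) : r * sg r = |r| := by
  unfold sg
  split_ifs with h
  · rw [abs_of_nonneg h, mul_one]
  · push Not at h
    rw [abs_of_neg h]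
    ring

theorem sg_or (r : ℝ) : sg r = 1 ∨ sg r = -1 := by
  unfold sg
  split_ifs
  · exact Or.inl rfl
  · exact Or.inr rfl

/-- The ones of the example with the signs `y`, `z` on the pairs in `V`. -/
noncomputable def ones (a b : Fin M → Fin n) (V : Finset (Fin M)) (y z : Fin M → ℝ) :
    Finset (Fin n) := by
  classical
  exact (V.filter fun u => y u = 1).image a ∪ (V.filter fun u => z u = 1).image b

theorem mem_ones_a (a b : Fin M → Fin n) (ha : Function.Injective a) (hab : ∀ u v, a u ≠ b v)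
    (V : Finset (Fin M)) (y z : Fin M → ℝ) (u : Fin M) :
    a u ∈ ones a b V y z ↔ u ∈ V ∧ y u = 1 := by
  classical
  unfold ones
  rw [mem_union, mem_image, mem_image]
  constructor
  · rintro (⟨v, hv, e⟩ | ⟨v, -, e⟩)
    · rw [← ha e]
      exact mem_filter.1 hv
    · exact absurd e.symm (hab u v)
  · intro h
    exact Or.inl ⟨u, mem_filter.2 h, rfl⟩

theorem mem_ones_b (a b : Fin M → Fin n) (hb : Function.Injective b) (hab : ∀ u v, a u ≠ b v)
    (V : Finset (Fin M)) (y z : Fin M → ℝ) (u : Fin M) :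
    b u ∈ ones a b V y z ↔ u ∈ V ∧ z u = 1 := by
  classical
  unfold ones
  rw [mem_union, mem_image, mem_image]
  constructor
  · rintro (⟨v, -, e⟩ | ⟨v, hv, e⟩)
    · exact absurd e (hab v u)
    · rw [← hb e]
      exact mem_filter.1 hv
  · intro h
    exact Or.inr ⟨u, mem_filter.2 h, rfl⟩

theorem lin_ones (a b : Fin M → Fin n) (ha : Function.Injective a) (hb : Function.Injective b)
    (hab : ∀ u v, a u ≠ b v) (V : Finset (Fin M)) (y z : Fin M → ℝ)
    (hy : ∀ u ∈ V, y u = 1 ∨ y u = -1) (hz : ∀ u ∈ V, z u = 1 ∨ z u = -1) (w : Fin n → ℝ) :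
    2 * lin w (ind (ones a b V y z)) =
      ∑ u ∈ V, (w (a u) + w (b u)) + ∑ u ∈ V, (w (a u) * y u + w (b u) * z u) := by
  classical
  rw [lin_ind]
  unfold ones
  rw [Finset.sum_union]
  · rw [Finset.sum_image fun _ _ _ _ h => ha h, Finset.sum_image fun _ _ _ _ h => hb h,
      Finset.sum_filter, Finset.sum_filter, ← Finset.sum_add_distrib, ← Finset.sum_add_distrib,
      Finset.mul_sum]
    refine Finset.sum_congr rfl fun u hu => ?_
    rcases hy u hu with h1 | h1 <;> rcases hz u hu with h2 | h2 <;> rw [h1, h2] <;> norm_num <;>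
      ring
  · rw [Finset.disjoint_left]
    intro i hi hi'
    obtain ⟨u, -, rfl⟩ := mem_image.1 hi
    obtain ⟨v, -, e⟩ := mem_image.1 hi'
    exact hab u v e.symm

/-- One mistake: an example on which the hypothesis is wrong for all pairs in `U`. -/
theorem step (a b : Fin M → Fin n) (ha : Function.Injective a) (hb : Function.Injective b)
    (hab : ∀ u v, a u ≠ b v) (g : Hyp n m K) (V : Finset (Fin M))
    (hV : m * (m + 1) * K ≤ V.card) :
    ∃ (y z : Fin M → ℝ) (U : Finset (Fin M)), U ⊆ V ∧ V.card ≤ U.card + m * (m + 1) * K ∧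
      (∀ u ∈ U, y u = 1 ∨ y u = -1) ∧
      ((g.val (ind (ones a b V y z)) ≠ 0 ∧ ∀ u ∈ U, z u = y u) ∨
        (g.val (ind (ones a b V y z)) ≠ 1 ∧ ∀ u ∈ U, z u = -y u)) := by
  classical
  let α : Fin m → Fin M → ℝ := fun i u => g.weight i (a u)
  let β : Fin m → Fin M → ℝ := fun i u => g.weight i (b u)
  let ω : Fin m × Fin K → Fin M → ℝ := fun p u => |α p.1 u| + |β p.1 u|
  obtain ⟨G, hG1, hG2, hG3⟩ := exists_groups V ω (m + 1) (univ : Finset (Fin m × Fin K)) (by
    rw [Finset.card_univ, Fintype.card_prod, Fintype.card_fin, Fintype.card_fin]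
    calc m * K * (m + 1) = m * (m + 1) * K := by ring
      _ ≤ V.card := hV)
  set B := (univ : Finset (Fin m × Fin K)).biUnion G with hB
  have hBV : B ⊆ V := by
    intro u hu
    obtain ⟨p, hp, hu⟩ := mem_biUnion.1 hu
    exact (hG1 p hp).1 hu
  have hBc : B.card ≤ m * (m + 1) * K := by
    calc B.card ≤ (univ : Finset (Fin m × Fin K)).card * (m + 1) :=
          Finset.card_biUnion_le_card_mul _ _ _ fun k hk => (hG1 k hk).2.le
      _ = m * (m + 1) * K := by
          rw [Finset.card_univ, Fintype.card_prod, Fintype.card_fin, Fintype.card_fin]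
          ring
  set U := V \ B with hU
  have hUB : ∀ u ∈ U, ∀ p, u ∉ G p := fun u hu p hp =>
    (mem_sdiff.1 hu).2 (mem_biUnion.2 ⟨p, mem_univ _, hp⟩)
  -- the maximal weights outside the groups
  have hWex : ∀ i : Fin m, ∃ W : ℝ, 0 ≤ W ∧ (∀ v ∈ U, |α i v| + |β i v| ≤ W) ∧
      ∀ k : Fin K, ∀ u ∈ G (i, k), W ≤ |α i u| + |β i u| := by
    intro i
    rcases U.eq_empty_or_nonempty with h | h
    · refine ⟨0, le_refl _, ?_, fun k u _ => by positivity⟩
      rw [h]
      simp
    · obtain ⟨v, hv, hmax⟩ := Finset.exists_max_image U (fun v => |α i v| + |β i v|) h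
      refine ⟨|α i v| + |β i v|, by positivity, hmax, fun k u hu => ?_⟩
      exact hG3 (i, k) (mem_univ _) u hu v (mem_sdiff.1 hv).1 (mem_sdiff.1 hv).2
  choose W hW0 hWU hWG using hWex
  -- the signs on the groups
  let σ : (Fin m → Fin (K + 1)) → Fin m × Fin K → ℝ := fun t p =>
    if (p.2 : ℕ) < (t p.1 : ℕ) then 1 else -1
  have hσ : ∀ t p, σ t p = 1 ∨ σ t p = -1 := by
    intro t p
    by_cases h : (p.2 : ℕ) < (t p.1 : ℕ)
    · exact Or.inl (if_pos h)
    · exact Or.inr (if_neg h)
  let Z : (Fin m → Fin M → ℝ) → (Fin m → Fin (K + 1)) → (Fin M → ℝ) → Fin M → ℝ :=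
    fun γ t y1 u => if h : ∃ p, u ∈ G p then σ t h.choose * sg (γ h.choose.1 u) else y1 u
  have hZ1 : ∀ γ t y1 p u, u ∈ G p → Z γ t y1 u = σ t p * sg (γ p.1 u) := by
    intro γ t y1 p u hu
    have h : ∃ p, u ∈ G p := ⟨p, hu⟩
    have e : h.choose = p := by
      by_contra hne
      exact Finset.disjoint_left.1 (hG2 _ (mem_univ _) _ (mem_univ _) hne) h.choose_spec hu
    show (if h : ∃ p, u ∈ G p then σ t h.choose * sg (γ h.choose.1 u) else y1 u) = _
    rw [dif_pos h, e]
  have hZ2 : ∀ γ t y1 u, u ∈ U → Z γ t y1 u = y1 u := by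
    intro γ t y1 u hu
    show (if h : ∃ p, u ∈ G p then σ t h.choose * sg (γ h.choose.1 u) else y1 u) = _
    rw [dif_neg]
    rintro ⟨p, hp⟩
    exact hUB u hu p hp
  have hZpm : ∀ γ t (y1 : Fin M → ℝ), (∀ u, y1 u = 1 ∨ y1 u = -1) →
      ∀ u ∈ V, Z γ t y1 u = 1 ∨ Z γ t y1 u = -1 := by
    intro γ t y1 hy1 u hu
    by_cases h : u ∈ B
    · obtain ⟨p, -, hp⟩ := mem_biUnion.1 h
      rw [hZ1 γ t y1 p u hp]
      rcases hσ t p with h1 | h1 <;> rcases sg_or (γ p.1 u) with h2 | h2 <;> rw [h1, h2] <;>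
        norm_num
    · rw [hZ2 γ t y1 u (mem_sdiff.2 ⟨hu, h⟩)]
      exact hy1 u
  -- the values of the forms on the groups
  let C : Fin m → (Fin m → Fin (K + 1)) → ℝ := fun j t =>
    ∑ p : Fin m × Fin K, ∑ u ∈ G p, σ t p * (α j u * sg (α p.1 u) + β j u * sg (β p.1 u))
  have hC : ∀ (j : Fin m) t (y1 z1 : Fin M → ℝ),
      ∑ u ∈ V, (α j u * Z α t y1 u + β j u * Z β t z1 u) =
        C j t + ∑ u ∈ U, (α j u * y1 u + β j u * z1 u) := by
    intro j t y1 z1
    rw [← Finset.sum_sdiff hBV, add_comm]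
    congr 1
    · rw [hB, Finset.sum_biUnion]
      · refine Finset.sum_congr rfl fun p _ => Finset.sum_congr rfl fun u hu => ?_
        rw [hZ1 α t y1 p u hu, hZ1 β t z1 p u hu]
        ring
      · intro p _ q _ hpq
        exact hG2 p (mem_univ _) q (mem_univ _) hpq
    · refine Finset.sum_congr rfl fun u hu => ?_
      rw [hZ2 α t y1 u hu, hZ2 β t z1 u hu]
  -- raising a coordinate of `t`
  have hline : ∀ (i : Fin m) (t t' : Fin m → Fin (K + 1)), (∀ l, l ≠ i → t l = t' l) →
      (t i : ℕ) < (t' i : ℕ) → 2 * ((m : ℝ) + 1) * W i ≤ C i t' - C i t := by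
    intro i t t' hoff hlt
    have hσle : ∀ p : Fin m × Fin K, σ t p ≤ σ t' p := by
      intro p
      by_cases h : p.1 = i
      · by_cases h1 : (p.2 : ℕ) < (t p.1 : ℕ)
        · have h2 : (p.2 : ℕ) < (t' p.1 : ℕ) := by
            rw [h] at h1 ⊢
            omega
          show (if _ then (1 : ℝ) else -1) ≤ if _ then (1 : ℝ) else -1
          rw [if_pos h1, if_pos h2]
        · show (if _ then (1 : ℝ) else -1) ≤ if _ then (1 : ℝ) else -1
          rw [if_neg h1]
          split_ifs <;> norm_num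
      · show (if _ then (1 : ℝ) else -1) ≤ if _ then (1 : ℝ) else -1
        rw [hoff p.1 h]
    have hσeq : ∀ p : Fin m × Fin K, p.1 ≠ i → σ t p = σ t' p := by
      intro p h
      show (if _ then (1 : ℝ) else -1) = if _ then (1 : ℝ) else -1
      rw [hoff p.1 h]
    have hdiff : C i t' - C i t = ∑ p : Fin m × Fin K, (σ t' p - σ t p) *
        ∑ u ∈ G p, (α i u * sg (α p.1 u) + β i u * sg (β p.1 u)) := by
      show (∑ p : Fin m × Fin K, ∑ u ∈ G p, σ t' p * _) - (∑ p : Fin m × Fin K,
        ∑ u ∈ G p, σ t p * _) = _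
      rw [← Finset.sum_sub_distrib]
      refine Finset.sum_congr rfl fun p _ => ?_
      rw [← Finset.mul_sum, ← Finset.mul_sum]
      ring
    have hnn : ∀ p : Fin m × Fin K, 0 ≤ (σ t' p - σ t p) *
        ∑ u ∈ G p, (α i u * sg (α p.1 u) + β i u * sg (β p.1 u)) := by
      intro p
      by_cases h : p.1 = i
      · refine mul_nonneg (by linarith [hσle p]) (Finset.sum_nonneg fun u _ => ?_)
        rw [h, mul_sg, mul_sg]
        positivity
      · rw [hσeq p h, sub_self, zero_mul]
    have hk : (t i : ℕ) < K := lt_of_lt_of_le hlt (Nat.lt_succ_iff.1 (t' i).2)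
    let p0 : Fin m × Fin K := (i, ⟨t i, hk⟩)
    have hp0 : 2 * ((m : ℝ) + 1) * W i ≤ (σ t' p0 - σ t p0) *
        ∑ u ∈ G p0, (α i u * sg (α p0.1 u) + β i u * sg (β p0.1 u)) := by
      have e1 : σ t' p0 = 1 := if_pos hlt
      have e2 : σ t p0 = -1 := if_neg (lt_irrefl _)
      rw [e1, e2]
      have h1 : ((m : ℝ) + 1) * W i ≤
          ∑ u ∈ G p0, (α i u * sg (α p0.1 u) + β i u * sg (β p0.1 u)) := by
        have h2 := Finset.card_nsmul_le_sum (G p0)
          (fun u => α i u * sg (α p0.1 u) + β i u * sg (β p0.1 u)) (W i) (fun u hu => by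
            show W i ≤ α i u * sg (α i u) + β i u * sg (β i u)
            rw [mul_sg, mul_sg]
            exact hWG i _ u hu)
        rw [(hG1 p0 (mem_univ _)).2, nsmul_eq_mul] at h2
        push_cast at h2
        exact h2
      linarith
    rw [hdiff]
    exact hp0.trans (Finset.single_le_sum (f := fun p : Fin m × Fin K => (σ t' p - σ t p) *
        ∑ u ∈ G p, (α i u * sg (α p.1 u) + β i u * sg (β p.1 u)))
      (fun p _ => hnn p) (mem_univ p0))
  -- a good point
  let θ : Fin K → ℝ := fun q => 2 * g.thr q - ∑ u ∈ V, (α (g.form q) u + β (g.form q) u)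
  obtain ⟨t, ht⟩ := exists_good m K g.form
    (fun q t => 0 < W (g.form q) ∧ |C (g.form q) t - θ q| ≤ m * W (g.form q)) (by
      rintro q t t' hoff ⟨hW, h1⟩ ⟨-, h2⟩
      rw [abs_le] at h1 h2
      funext l
      by_cases hl : l = g.form q
      · rw [hl]
        apply Fin.ext
        rcases lt_trichotomy (t (g.form q) : ℕ) (t' (g.form q) : ℕ) with h | h | h
        · have h3 := hline _ t t' hoff h
          linarith
        · exact h
        · have h3 := hline _ t' t (fun l hl => (hoff l hl).symm) h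
          linarith
      · exact hoff l hl)
  obtain ⟨y1, hy1, hy2⟩ := exists_signs U m (fun i u => α i u + β i u) W
    (fun i u hu => (abs_add_le _ _).trans (hWU i u hu)) hW0
  obtain ⟨z1, hz1, hz2⟩ := exists_signs U m (fun i u => α i u - β i u) W
    (fun i u hu => (abs_sub _ _).trans (hWU i u hu)) hW0
  have hz1' : ∀ u, -z1 u = 1 ∨ -z1 u = -1 := by
    intro u
    rcases hz1 u with h | h <;> rw [h] <;> norm_num
  set P := ind (ones a b V (Z α t y1) (Z β t y1)) with hP
  set P' := ind (ones a b V (Z α t z1) (Z β t fun u => -z1 u)) with hP'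
  have hgate : ∀ q, (g.thr q ≤ lin (g.weight (g.form q)) P ↔
      g.thr q ≤ lin (g.weight (g.form q)) P') := by
    intro q
    have e1 := lin_ones a b ha hb hab V (Z α t y1) (Z β t y1) (hZpm α t y1 hy1)
      (hZpm β t y1 hy1) (g.weight (g.form q))
    have e2 := lin_ones a b ha hb hab V (Z α t z1) (Z β t fun u => -z1 u) (hZpm α t z1 hz1)
      (hZpm β t _ hz1') (g.weight (g.form q))
    rw [← hP] at e1
    rw [← hP'] at e2
    have f1 := hC (g.form q) t y1 y1
    have f2 := hC (g.form q) t z1 fun u => -z1 u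
    have g1 := abs_le.1 (hy2 (g.form q))
    have g2 := abs_le.1 (hz2 (g.form q))
    have k1 : ∑ u ∈ U, (α (g.form q) u * y1 u + β (g.form q) u * y1 u) =
        ∑ u ∈ U, (α (g.form q) u + β (g.form q) u) * y1 u :=
      Finset.sum_congr rfl fun u _ => by ring
    have k2 : ∑ u ∈ U, (α (g.form q) u * z1 u + β (g.form q) u * -z1 u) =
        ∑ u ∈ U, (α (g.form q) u - β (g.form q) u) * z1 u :=
      Finset.sum_congr rfl fun u _ => by ring
    rw [k1] at f1
    rw [k2] at f2
    have hθ : θ q = 2 * g.thr q - ∑ u ∈ V, (α (g.form q) u + β (g.form q) u) := rfl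
    have e1' : 2 * lin (g.weight (g.form q)) P =
        ∑ u ∈ V, (α (g.form q) u + β (g.form q) u) + (C (g.form q) t +
          ∑ u ∈ U, (α (g.form q) u + β (g.form q) u) * y1 u) := by
      rw [← f1]
      exact e1
    have e2' : 2 * lin (g.weight (g.form q)) P' =
        ∑ u ∈ V, (α (g.form q) u + β (g.form q) u) + (C (g.form q) t +
          ∑ u ∈ U, (α (g.form q) u - β (g.form q) u) * z1 u) := by
      rw [← f2]
      exact e2
    rcases (hW0 (g.form q)).lt_or_eq with hWp | hW0'
    · have hnb := ht q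
      rw [not_and, not_le] at hnb
      rcases lt_abs.1 (hnb hWp) with h | h
      · constructor <;> intro _ <;> linarith
      · constructor <;> intro _ <;> linarith
    · rw [← hW0', mul_zero] at g1 g2
      constructor <;> intro _ <;> linarith
  have hval : g.val P = g.val P' := by
    unfold Hyp.val
    congr 1
    funext q
    exact decide_eq_decide.2 (hgate q)
  have hcard : V.card ≤ U.card + m * (m + 1) * K := by
    have := Finset.card_sdiff_add_card_eq_card hBV
    rw [← hU] at this
    omega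
  by_cases h0 : g.val P = 0
  · refine ⟨Z α t z1, Z β t fun u => -z1 u, U, sdiff_subset, hcard, ?_, Or.inr ⟨?_, ?_⟩⟩
    · intro u hu
      rw [hZ2 α t z1 u hu]
      exact hz1 u
    · rw [← hP', ← hval, h0]
      exact zero_ne_one
    · intro u hu
      rw [hZ2 α t z1 u hu]
      exact hZ2 β t (fun u => -z1 u) u hu
  · refine ⟨Z α t y1, Z β t y1, U, sdiff_subset, hcard, ?_, Or.inl ⟨h0, ?_⟩⟩
    · intro u hu
      rw [hZ2 α t y1 u hu]
      exact hy1 u
    · intro u hu
      rw [hZ2 α t y1 u hu, hZ2 β t y1 u hu]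

end play

end Pool.Agent.H40.FH
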