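import Pool.Agent.H40.FH.B

set_option autoImplicit false

namespace Pool.Agent.H40.FH

open Finset

variable {n m K M : ℕ}

theorem chi_ones (a b : Fin M → Fin n) (ha : Function.Injective a) (hb : Function.Injective b)
    (hab : ∀ u v, a u ≠ b v) (R : Finset (Fin n)) (haR : ∀ u, a u ∉ R) (hbR : ∀ u, b u ∉ R)
    (V : Finset (Fin M)) (y z : Fin M → ℝ) (u : Fin M) (hu : u ∈ V) :
    chi (insert (a u) (insert (b u) R)) (ind (ones a b V y z)) =
      (if y u = 1 then 1 else 0) + (if z u = 1 then 1 else 0) := by
  classical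
  unfold chi
  rw [Finset.sum_insert, Finset.sum_insert (hbR u), Finset.sum_eq_zero (s := R), add_zero]
  · unfold ind
    congr 1
    · by_cases h : y u = 1
      · rw [if_pos ((mem_ones_a a b ha hab V y z u).2 ⟨hu, h⟩), if_pos h]
      · rw [if_neg (fun h1 => h ((mem_ones_a a b ha hab V y z u).1 h1).2), if_neg h]
    · by_cases h : z u = 1
      · rw [if_pos ((mem_ones_b a b hb hab V y z u).2 ⟨hu, h⟩), if_pos h]
      · rw [if_neg (fun h1 => h ((mem_ones_b a b hb hab V y z u).1 h1).2), if_neg h]
  · intro i hi
    unfold ind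
    rw [if_neg]
    intro hi'
    unfold ones at hi'
    rcases mem_union.1 hi' with h | h
    · obtain ⟨v, -, rfl⟩ := mem_image.1 h
      exact haR v hi
    · obtain ⟨v, -, rfl⟩ := mem_image.1 h
      exact hbR v hi
  · rw [mem_insert, not_or]
    exact ⟨hab u u, haR u⟩

theorem game (a b : Fin M → Fin n) (ha : Function.Injective a) (hb : Function.Injective b)
    (hab : ∀ u v, a u ≠ b v) (R : Finset (Fin n)) (haR : ∀ u, a u ∉ R) (hbR : ∀ u, b u ∉ R)
    (A : List (Ex n × ZMod 2) → Hyp n m K) :
    ∀ (j : ℕ) (V : Finset (Fin M)) (h : List (Ex n × ZMod 2)),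
      j * (m * (m + 1) * K) < V.card →
        ∃ u ∈ V, ∃ xs : List (Ex n),
          j ≤ mistakes (fun h x => (A h).val x) (chi (insert (a u) (insert (b u) R))) h xs := by
  intro j
  induction j with
  | zero =>
    intro V h hV
    obtain ⟨u, hu⟩ := Finset.card_pos.1 (by omega : 0 < V.card)
    exact ⟨u, hu, [], Nat.zero_le _⟩
  | succ j ih =>
    intro V h hV
    rw [add_mul, one_mul] at hV
    obtain ⟨y, z, U, hUV, hUc, hy, hz⟩ := step a b ha hb hab (A h) V (by omega)
    have hstep : ∀ l : ZMod 2, (A h).val (ind (ones a b V y z)) ≠ l →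
        (∀ u ∈ U, chi (insert (a u) (insert (b u) R)) (ind (ones a b V y z)) = l) →
        ∃ u ∈ V, ∃ xs : List (Ex n),
          j + 1 ≤ mistakes (fun h x => (A h).val x) (chi (insert (a u) (insert (b u) R))) h xs := by
      intro l hl hlab
      obtain ⟨u, hu, xs, hxs⟩ := ih U (h ++ [(ind (ones a b V y z), l)]) (by omega)
      refine ⟨u, hUV hu, ind (ones a b V y z) :: xs, ?_⟩
      unfold mistakes
      rw [hlab u hu, if_neg hl]
      omega
    rcases hz with ⟨h0, hz⟩ | ⟨h1, hz⟩
    · refine hstep 0 h0 fun u hu => ?_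
      rw [chi_ones a b ha hb hab R haR hbR V y z u (hUV hu), hz u hu]
      split_ifs
      · decide
      · decide
    · refine hstep 1 h1 fun u hu => ?_
      rw [chi_ones a b ha hb hab R haR hbR V y z u (hUV hu), hz u hu]
      rcases hy u hu with h2 | h2
      · rw [h2]
        norm_num
      · rw [h2]
        norm_num

/-- Let `A` be a learner (any function from finite histories of labelled examples to hypotheses)
each of whose hypotheses is an arbitrary Boolean function of `K` threshold gates with at most `m`
different weight vectors. If `r ≥ 2` and `2 * j * (m * (m + 1) * K) + r ≤ n`, then `A` makes at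
least `j` mistakes on some parity function of exactly `r` variables and some finite sequence of
examples. -/
theorem result : ∀ (n r m K j : ℕ) (A : List (Ex n × ZMod 2) → Hyp n m K), 2 ≤ r →
    2 * j * (m * (m + 1) * K) + r ≤ n →
      ∃ S : Finset (Fin n), S.card = r ∧
        ∃ xs : List (Ex n), j ≤ mistakes (fun h x => (A h).val x) (chi S) [] xs := by
  classical
  intro n r m K j A hr hn
  set c := m * (m + 1) * K with hc
  set M := j * c + 1 with hM
  have h2 : 2 * j * c = 2 * (j * c) := by ring
  let a : Fin M → Fin n := fun u => ⟨2 * u, by have := u.2; omega⟩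
  let b : Fin M → Fin n := fun u => ⟨2 * u + 1, by have := u.2; omega⟩
  have ha : Function.Injective a := by
    intro u v h
    have h1 : 2 * (u : ℕ) = 2 * v := congrArg Fin.val h
    exact Fin.ext (by omega)
  have hb : Function.Injective b := by
    intro u v h
    have h1 : 2 * (u : ℕ) + 1 = 2 * v + 1 := congrArg Fin.val h
    exact Fin.ext (by omega)
  have hab : ∀ u v, a u ≠ b v := by
    intro u v h
    have h1 : 2 * (u : ℕ) = 2 * v + 1 := congrArg Fin.val h
    omega
  have hcard : (univ.image a ∪ univ.image b).card ≤ 2 * M := by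
    refine (Finset.card_union_le _ _).trans ?_
    have h3 : (univ.image a).card ≤ M := by
      simpa using (Finset.card_image_le : (univ.image a).card ≤ (univ : Finset (Fin M)).card)
    have h4 : (univ.image b).card ≤ M := by
      simpa using (Finset.card_image_le : (univ.image b).card ≤ (univ : Finset (Fin M)).card)
    omega
  obtain ⟨R, hRs, hR⟩ := Finset.exists_subset_card_eq
    (s := (univ : Finset (Fin n)) \ (univ.image a ∪ univ.image b)) (n := r - 2) (by
      rw [Finset.card_sdiff_of_subset (subset_univ _), Finset.card_univ, Fintype.card_fin]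
      omega)
  have haR : ∀ u, a u ∉ R := fun u hu =>
    (mem_sdiff.1 (hRs hu)).2 (mem_union_left _ (mem_image_of_mem a (mem_univ u)))
  have hbR : ∀ u, b u ∉ R := fun u hu =>
    (mem_sdiff.1 (hRs hu)).2 (mem_union_right _ (mem_image_of_mem b (mem_univ u)))
  obtain ⟨u, -, xs, hxs⟩ := game a b ha hb hab R haR hbR A j univ [] (by
    rw [Finset.card_univ, Fintype.card_fin, ← hc]
    omega)
  refine ⟨insert (a u) (insert (b u) R), ?_, xs, hxs⟩
  rw [Finset.card_insert_of_notMem, Finset.card_insert_of_notMem (hbR u), hR]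
  · omega
  · rw [mem_insert, not_or]
    exact ⟨hab u u, haR u⟩

end Pool.Agent.H40.FH
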